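import Pool.Agent.H49.CL.Targets

/-! Unions and numbers of classes (row NCU of cl). -/

set_option autoImplicit false

namespace Pool.Agent.H95.CL

open Pool.Agent.H72.CH Pool.Agent.H49.CL

variable {V X : Type}

/-- the equivalence relation -/
def rel (m : ℕ) (lv : V → V → ℕ) (i : ℕ) (ψ : X → V) (h : PLev m lv) (hi : i ≤ m) : Setoid X where
  r a b := i ≤ lv (ψ a) (ψ b)
  iseqv := by
    refine ⟨fun a => ?_, fun {a b} hab => ?_, fun {a b c} hab hbc => ?_⟩
    · rw [h.self]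
      exact hi
    · rw [h.sym]
      exact hab
    · exact (le_min hab hbc).trans (h.ult _ _ _)

theorem ncl_eq (m : ℕ) (lv : V → V → ℕ) (i : ℕ) (ψ : X → V) (h : PLev m lv) (hi : i ≤ m)
    (S : Set X) :
    ncl lv i ψ S = ((Quotient.mk (rel m lv i ψ h hi)) '' S).ncard := by
  have e : (fun a => {b | b ∈ S ∧ i ≤ lv (ψ a) (ψ b)}) '' S =
      (fun c => {b | b ∈ S ∧ c = Quotient.mk (rel m lv i ψ h hi) b}) ''
        ((Quotient.mk (rel m lv i ψ h hi)) '' S) := by
    rw [Set.image_image]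
    refine Set.image_congr fun a _ => ?_
    ext b
    refine and_congr_right fun _ => ?_
    exact (Quotient.eq (r := rel m lv i ψ h hi)).symm
  unfold ncl
  rw [e, Set.ncard_image_of_injOn]
  rintro c ⟨a, ha, rfl⟩ c' _ hcc
  have h1 : a ∈ {b | b ∈ S ∧ Quotient.mk (rel m lv i ψ h hi) a =
      Quotient.mk (rel m lv i ψ h hi) b} := ⟨ha, rfl⟩
  have h2 : {b | b ∈ S ∧ Quotient.mk (rel m lv i ψ h hi) a =
      Quotient.mk (rel m lv i ψ h hi) b} =
      {b | b ∈ S ∧ c' = Quotient.mk (rel m lv i ψ h hi) b} := hcc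
  rw [h2] at h1
  exact h1.2.symm

theorem pf_NCU : T_NCU := by
  intro V X _ m lv i ψ S T h hi
  rw [ncl_eq m lv i ψ h hi, ncl_eq m lv i ψ h hi, ncl_eq m lv i ψ h hi, Set.image_union]
  refine ⟨Set.ncard_union_le _ _, fun hd => ?_⟩
  refine Set.ncard_union_eq ?_ (Set.toFinite _) (Set.toFinite _)
  rw [Set.disjoint_left]
  rintro c ⟨a, ha, rfl⟩ ⟨b, hb, hab⟩
  exact hd a ha b hb ((Quotient.eq (r := rel m lv i ψ h hi)).1 hab.symm)

end Pool.Agent.H95.CL
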